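import Mathlib

set_option autoImplicit false
open MeasureTheory Filter Topology Set
open scoped ENNReal

namespace Pool.Agent.Lexi

/-- subalgebras of `C(S)` containing the constants -/
abbrev SubAlg (S : Type) [TopologicalSpace S] : Type := Subalgebra ℂ C(S, ℂ)

/-- `f` lies in the closure of `W` for the weak-star topology `σ(L^∞(σ), L¹(σ))`: every basic
weak-star neighbourhood of `f` meets `W`. -/
def InWkCl {S : Type} [MeasurableSpace S] (W : Set (S → ℂ)) (σ : Measure S) (f : S → ℂ) : Prop :=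
  ∀ (n : ℕ) (g : Fin n → S → ℂ), (∀ j, Integrable (g j) σ) → ∀ ε > 0,
    ∃ a ∈ W, ∀ j, ‖∫ s, (f s - a s) * g j s ∂σ‖ < ε

/-- The underlying functions of the elements of `A ⊆ C(S)`. -/
def fns {S : Type} [TopologicalSpace S] (A : Set C(S, ℂ)) : Set (S → ℂ) :=
  {u | ∃ a ∈ A, u = ⇑a}

/-- The class of `f` is in `A_σ`: `f` is essentially bounded, and in the weak-star closure of
`A` in `L^∞(σ)`. -/
def InAsig {S : Type} [TopologicalSpace S] [MeasurableSpace S] (A : SubAlg S) (σ : Measure S)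
    (f : S → ℂ) : Prop :=
  MemLp f ∞ σ ∧ InWkCl (fns (A : Set C(S, ℂ))) σ f

/-- the open unit disk -/
abbrev Disk : Type := Metric.ball (0 : ℂ) 1

/-- `f ∈ H^∞(𝔻)`: `f` is a bounded analytic function on the open unit disk. -/
def IsHinf (f : Disk → ℂ) : Prop :=
  (∃ C : ℝ, ∀ z, ‖f z‖ ≤ C) ∧
    ∃ F : ℂ → ℂ, DifferentiableOn ℂ F (Metric.ball 0 1) ∧ ∀ z : Disk, f z = F z

/-- (i) every continuous nonzero multiplicative linear functional `φ` on `A` is evaluation at exactly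
one point of `S` (`φ` is given as a function on `C(S)`; only its values on `A` matter). -/
def CondI {S : Type} [TopologicalSpace S] [CompactSpace S] (A : SubAlg S) : Prop :=
  ∀ φ : C(S, ℂ) → ℂ, ContinuousOn φ (A : Set C(S, ℂ)) →
    (∀ f ∈ A, ∀ g ∈ A, φ (f + g) = φ f + φ g) → (∀ c : ℂ, ∀ f ∈ A, φ (c • f) = c * φ f) →
    (∀ f ∈ A, ∀ g ∈ A, φ (f * g) = φ f * φ g) → (∃ f ∈ A, φ f ≠ 0) →
    ∃! s : S, ∀ f ∈ A, φ f = f s

/-- (ii) every invertible element of `A` is the exponential of an element of `A`. -/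
def CondII {S : Type} [TopologicalSpace S] (A : SubAlg S) : Prop :=
  ∀ f ∈ A, ∀ g ∈ A, f * g = 1 → ∃ h ∈ A, ∀ s, f s = Complex.exp (h s)

/-- the support of `σ` has more than one point -/
def TwoPoints {S : Type} [TopologicalSpace S] [MeasurableSpace S] (σ : Measure S) : Prop :=
  ∃ s t : S, s ≠ t ∧ (∀ U ∈ 𝓝 s, 0 < σ U) ∧ ∀ U ∈ 𝓝 t, 0 < σ U

/-- (H1) every real-valued element of `A_σ` is constant `σ`-a.e. -/
def CondH1 {S : Type} [TopologicalSpace S] [MeasurableSpace S] (A : SubAlg S) (σ : Measure S) :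
    Prop :=
  ∀ f, InAsig A σ f → (∀ᵐ s ∂σ, (f s).im = 0) → ∃ c : ℂ, ∀ᵐ s ∂σ, f s = c

/-- (H2) `{f + conj g : f, g ∈ A}` is weak-star dense in `L^∞(σ)`. -/
def CondH2 {S : Type} [TopologicalSpace S] [MeasurableSpace S] (A : SubAlg S) (σ : Measure S) :
    Prop :=
  ∀ u : S → ℂ, MemLp u ∞ σ → InWkCl {k | ∃ f ∈ A, ∃ g ∈ A, k = fun s => f s + star (g s)} σ u

/-- `A_σ` (functions `f` with `InAsig A σ f`, modulo `σ`-a.e. equality) and `H^∞(𝔻)` are isomorphic
as complex algebras: `Φ` induces a bijective algebra homomorphism. -/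
def IsoHinf {S : Type} [TopologicalSpace S] [MeasurableSpace S] (A : SubAlg S) (σ : Measure S) :
    Prop :=
  ∃ Φ : (S → ℂ) → (Disk → ℂ),
    (∀ f, InAsig A σ f → IsHinf (Φ f)) ∧
    (∀ f g, InAsig A σ f → InAsig A σ g →
      Φ (f + g) = Φ f + Φ g ∧ Φ (f * g) = Φ f * Φ g ∧ (Φ f = Φ g ↔ ∀ᵐ s ∂σ, f s = g s)) ∧
    (∀ (c : ℂ) f, InAsig A σ f → Φ (c • f) = c • Φ f) ∧
    ∀ h, IsHinf h → ∃ f, InAsig A σ f ∧ Φ f = h

end Pool.Agent.Lexi
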