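import Pool.Agent.H0.Lexi.Lem

set_option autoImplicit false
open MeasureTheory Filter Topology Set
open scoped ENNReal

namespace Pool.Agent.Lexi

/-- `H^∞(𝔻)`: bounded analytic functions on the open unit disk. -/
def Hinf : Subalgebra ℂ (Disk → ℂ) where
  carrier := {f | IsHinf f}
  mul_mem' := hinf_mul
  add_mem' := hinf_add
  algebraMap_mem' := hinf_const

end Pool.Agent.Lexi
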