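import Pool.Agent.H0.Lexi.Space

set_option autoImplicit false
open MeasureTheory Filter Topology Set
open scoped ENNReal ComplexConjugate unitInterval

namespace Pool.Agent.Lexi

section log
variable {S : Type} [TopologicalSpace S] [CompactSpace S] (A : Subalgebra ℂ C(S, ℂ))

lemma log_mem (hA : IsClosed (A : Set C(S, ℂ))) (u : C(S, ℂ)) (hu : u ∈ A) (hlt : ‖u‖ < 1) :
    ∃ h ∈ A, ∀ s, 1 - u s = Complex.exp (h s) := by
  set t : ℕ → C(S, ℂ) := fun n => ((n : ℂ) + 1)⁻¹ • u ^ (n + 1) with ht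
  have htA : ∀ n, t n ∈ A := fun n => A.smul_mem (A.pow_mem hu _) _
  have hsum : Summable t := by
    apply Summable.of_norm_bounded (g := fun n : ℕ => ‖u‖ ^ (n + 1))
    · exact (summable_nat_add_iff 1).mpr (summable_geometric_of_lt_one (norm_nonneg _) hlt)
    · intro n
      rw [ht]
      simp only
      rw [norm_smul, norm_inv]
      have h1 : (1 : ℝ) ≤ ‖(n : ℂ) + 1‖ := by
        have : ((n : ℂ) + 1) = ((n + 1 : ℕ) : ℂ) := by push_cast; ring
        rw [this, Complex.norm_natCast]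
        exact_mod_cast Nat.le_add_left 1 n
      have h2 : ‖(n : ℂ) + 1‖⁻¹ ≤ 1 := inv_le_one_of_one_le₀ h1
      calc ‖(n : ℂ) + 1‖⁻¹ * ‖u ^ (n + 1)‖ ≤ 1 * ‖u‖ ^ (n + 1) :=
            mul_le_mul h2 (norm_pow_le' u (Nat.succ_pos n)) (norm_nonneg _) zero_le_one
        _ = _ := one_mul _
  obtain ⟨g, hg⟩ := hsum
  refine ⟨-g, ?_, ?_⟩
  · apply A.neg_mem
    exact hA.mem_of_tendsto hg (Eventually.of_forall fun F => A.sum_mem fun n _ => htA n)
  · intro s
    have h1 : HasSum (fun n => t n s) (g s) := hg.map (ContinuousMap.evalCLM ℂ s)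
      (ContinuousMap.evalCLM ℂ s).continuous
    have hus : ‖u s‖ < 1 := (u.norm_coe_le_norm s).trans_lt hlt
    have h2 := Complex.hasSum_taylorSeries_neg_log' hus
    have h3 : HasSum (fun n => t n s) (-Complex.log (1 - u s)) := by
      have e : (fun n => t n s) = fun n : ℕ => u s ^ (n + 1) / ((n : ℂ) + 1) := by
        funext n
        simp only [ht, ContinuousMap.smul_apply, ContinuousMap.pow_apply, smul_eq_mul]
        rw [div_eq_inv_mul]
      rw [e]
      exact h2
    have h4 : g s = -Complex.log (1 - u s) := h1.unique h3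
    have hne : 1 - u s ≠ 0 := by
      intro h0
      have : u s = 1 := by linear_combination -h0
      rw [this] at hus
      simp at hus
    rw [ContinuousMap.neg_apply, h4, neg_neg, Complex.exp_log hne]

/-- exponentials of elements of `A` -/
def IsExp (f : C(S, ℂ)) : Prop := ∃ h ∈ A, ∀ s, f s = Complex.exp (h s)

lemma path_exp (hA : IsClosed (A : Set C(S, ℂ))) (γ δ : I → C(S, ℂ)) (hγ : Continuous γ)
    (hγA : ∀ t, γ t ∈ A) (hδA : ∀ t, δ t ∈ A) (hinv : ∀ t, γ t * δ t = 1)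
    (h0 : IsExp A (γ 0)) : IsExp A (γ 1) := by
  -- local constancy
  have hloc : ∀ t₀ : I, ∀ᶠ t in 𝓝 t₀, ∃ k ∈ A, ∀ s, γ t s = γ t₀ s * Complex.exp (k s) := by
    intro t₀
    have h1 : Tendsto (fun t => (γ t₀ - γ t) * δ t₀) (𝓝 t₀) (𝓝 ((γ t₀ - γ t₀) * δ t₀)) :=
      ((tendsto_const_nhds.sub hγ.continuousAt).mul tendsto_const_nhds)
    rw [sub_self, zero_mul] at h1
    have h2 : ∀ᶠ t in 𝓝 t₀, ‖(γ t₀ - γ t) * δ t₀‖ < 1 := by
      have := h1.norm
      rw [norm_zero] at this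
      exact this.eventually_lt_const one_pos
    filter_upwards [h2] with t ht
    obtain ⟨k, hk, hk2⟩ := log_mem A hA _ (A.mul_mem (A.sub_mem (hγA t₀) (hγA t)) (hδA t₀)) ht
    refine ⟨k, hk, fun s => ?_⟩
    rw [← hk2 s]
    have e1 : γ t₀ s * δ t₀ s = 1 := by
      have := congrArg (fun f : C(S, ℂ) => f s) (hinv t₀)
      simpa using this
    simp only [ContinuousMap.mul_apply, ContinuousMap.sub_apply]
    linear_combination (γ t₀ s - γ t s) * e1
  have hopen : IsOpen {t | IsExp A (γ t)} := by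
    rw [isOpen_iff_mem_nhds]
    rintro t₀ ⟨h, hh, hh2⟩
    filter_upwards [hloc t₀] with t ht
    obtain ⟨k, hk, hk2⟩ := ht
    refine ⟨h + k, A.add_mem hh hk, fun s => ?_⟩
    rw [hk2 s, hh2 s, ContinuousMap.add_apply, Complex.exp_add]
  have hclosed : IsOpen {t | IsExp A (γ t)}ᶜ := by
    rw [isOpen_iff_mem_nhds]
    intro t₀ ht₀
    filter_upwards [hloc t₀] with t ht hexp
    apply ht₀
    obtain ⟨k, hk, hk2⟩ := ht
    obtain ⟨h, hh, hh2⟩ := hexp
    refine ⟨h - k, A.sub_mem hh hk, fun s => ?_⟩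
    rw [ContinuousMap.sub_apply, Complex.exp_sub, ← hh2 s, hk2 s]
    field_simp
  have hcl : IsClopen {t | IsExp A (γ t)} := ⟨⟨hclosed⟩, hopen⟩
  have huniv := hcl.eq_univ ⟨0, h0⟩
  have : (1 : I) ∈ {t | IsExp A (γ t)} := by rw [huniv]; trivial
  exact this

end log

/-- composition with a map preserving the generators preserves `AA` -/
lemma comp_mem (τ : C(SS, SS)) (hW : W.comp τ ∈ AA) (hZ : ∀ k, (Z k).comp τ ∈ AA) (f : C(SS, ℂ))
    (hf : f ∈ AA) : f.comp τ ∈ AA := by
  have hA0 : ∀ p ∈ A0, p.comp τ ∈ AA := by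
    intro p hp
    induction hp using Algebra.adjoin_induction with
    | mem x hx =>
      rcases hx with rfl | ⟨k, rfl⟩
      · exact hW
      · exact hZ k
    | algebraMap r => exact AA.algebraMap_mem r
    | add x y hx hy h1 h2 => exact AA.add_mem h1 h2
    | mul x y hx hy h1 h2 => exact AA.mul_mem h1 h2
  have hcont : Continuous (fun f : C(SS, ℂ) => f.comp τ) := ContinuousMap.continuous_precomp τ
  have h1 : f ∈ closure (A0 : Set C(SS, ℂ)) := hf
  have h2 : f.comp τ ∈ closure ((fun f : C(SS, ℂ) => f.comp τ) '' (A0 : Set C(SS, ℂ))) :=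
    image_closure_subset_closure_image hcont ⟨f, h1, rfl⟩
  have h3 : closure ((fun f : C(SS, ℂ) => f.comp τ) '' (A0 : Set C(SS, ℂ))) ⊆ (AA : Set C(SS, ℂ)) := by
    apply closure_minimal _ AA_closed
    rintro _ ⟨p, hp, rfl⟩
    exact hA0 p hp
  exact h3 h2

/-- `(z, w) ↦ (r z, w)` -/
noncomputable def rho : C(I × SS, SS) :=
  ⟨fun q => ⟨(((q.1 : ℝ) : ℂ) * q.2.1.1, q.2.1.2), by
      obtain ⟨h1, h2, h3⟩ := q.2.2
      refine ⟨?_, h2, ?_⟩
      · rw [norm_mul, Complex.norm_real, Real.norm_eq_abs, abs_of_nonneg q.1.2.1]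
        calc (q.1 : ℝ) * ‖q.2.1.1‖ ≤ 1 * 1 := mul_le_mul q.1.2.2 h1 (norm_nonneg _) zero_le_one
          _ = 1 := one_mul 1
      · rcases h3 with h | h
        · left
          change ((q.1 : ℝ) : ℂ) * q.2.1.1 = 0
          rw [h, mul_zero]
        · right; exact h⟩, by
    apply Continuous.subtype_mk
    fun_prop⟩

/-- `(z, w) ↦ (0, s w)` -/
noncomputable def eta : C(I × SS, SS) :=
  ⟨fun q => ⟨(0, ((q.1 : ℝ) : ℂ) * q.2.1.2), by
      obtain ⟨h1, h2, h3⟩ := q.2.2
      refine ⟨by simp, ?_, Or.inl rfl⟩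
      rw [norm_mul, Complex.norm_real, Real.norm_eq_abs, abs_of_nonneg q.1.2.1]
      calc (q.1 : ℝ) * ‖q.2.1.2‖ ≤ 1 * 1 := mul_le_mul q.1.2.2 h2 (norm_nonneg _) zero_le_one
        _ = 1 := one_mul 1⟩, by
    apply Continuous.subtype_mk
    fun_prop⟩

/-- slice maps -/
noncomputable def sl (F : C(I × SS, SS)) (t : I) : C(SS, SS) := ⟨fun p => F (t, p), by fun_prop⟩

lemma sl_cont (F : C(I × SS, SS)) (f : C(SS, ℂ)) : Continuous (fun t : I => f.comp (sl F t)) := by
  have h := (f.comp F).curry.continuous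
  exact h

lemma rho_mem (t : I) (f : C(SS, ℂ)) (hf : f ∈ AA) : f.comp (sl rho t) ∈ AA := by
  apply comp_mem _ _ _ f hf
  · have : W.comp (sl rho t) = W := by
      ext p; rfl
    rw [this]
    exact W_mem
  · intro k
    have : (Z k).comp (sl rho t) = ((t : ℝ) : ℂ) • Z k := by
      ext p
      change ((t : ℝ) : ℂ) * p.1.1 * (conj p.1.2) ^ k = ((t : ℝ) : ℂ) * (p.1.1 * (conj p.1.2) ^ k)
      ring
    rw [this]
    exact AA.smul_mem (Z_mem k) _

lemma eta_mem (t : I) (f : C(SS, ℂ)) (hf : f ∈ AA) : f.comp (sl eta t) ∈ AA := by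
  apply comp_mem _ _ _ f hf
  · have : W.comp (sl eta t) = ((t : ℝ) : ℂ) • W := by
      ext p; rfl
    rw [this]
    exact AA.smul_mem W_mem _
  · intro k
    have : (Z k).comp (sl eta t) = 0 := by
      ext p
      change (0 : ℂ) * (conj (((t : ℝ) : ℂ) * p.1.2)) ^ k = 0
      rw [zero_mul]
    rw [this]
    exact AA.zero_mem

theorem condII : CondII AA := by
  intro f hf g hg hfg'
  have hcomp : ∀ τ : C(SS, SS), f.comp τ * g.comp τ = 1 := by
    intro τ
    have : f.comp τ * g.comp τ = (f * g).comp τ := rfl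
    rw [this, hfg']
    rfl
  -- first path
  have s0 : IsExp AA (f.comp (sl eta 0)) := by
    set c : ℂ := f ⟨(0, 0), by simp, by simp, Or.inl rfl⟩ with hc
    have hval : ∀ p, f.comp (sl eta 0) p = c := by
      intro p
      rw [hc, ContinuousMap.comp_apply]
      congr 1
      apply Subtype.ext
      change ((0 : ℂ), (((0 : I) : ℝ) : ℂ) * p.1.2) = (0, 0)
      simp
    have hc0 : c ≠ 0 := by
      intro h0
      have h1 := congrArg (fun F : C(SS, ℂ) => F ⟨(0, 0), by simp, by simp, Or.inl rfl⟩) hfg'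
      have h2 : c * g ⟨(0, 0), by simp, by simp, Or.inl rfl⟩ = 1 := h1
      rw [h0, zero_mul] at h2
      exact zero_ne_one h2
    refine ⟨algebraMap ℂ C(SS, ℂ) (Complex.log c), AA.algebraMap_mem _, fun p => ?_⟩
    rw [hval p]
    change c = Complex.exp (Complex.log c)
    rw [Complex.exp_log hc0]
  have s1 : IsExp AA (f.comp (sl eta 1)) :=
    path_exp AA AA_closed (fun t => f.comp (sl eta t)) (fun t => g.comp (sl eta t))
      (sl_cont eta f) (fun t => eta_mem t f hf) (fun t => eta_mem t g hg)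
      (fun t => hcomp _) s0
  have e1 : f.comp (sl eta 1) = f.comp (sl rho 0) := by
    ext p
    rw [ContinuousMap.comp_apply, ContinuousMap.comp_apply]
    congr 1
    apply Subtype.ext
    change ((0 : ℂ), (((1 : I) : ℝ) : ℂ) * p.1.2) = ((((0 : I) : ℝ) : ℂ) * p.1.1, p.1.2)
    simp
  rw [e1] at s1
  have s2 : IsExp AA (f.comp (sl rho 1)) :=
    path_exp AA AA_closed (fun t => f.comp (sl rho t)) (fun t => g.comp (sl rho t))
      (sl_cont rho f) (fun t => rho_mem t f hf) (fun t => rho_mem t g hg)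
      (fun t => hcomp _) s1
  have e2 : f.comp (sl rho 1) = f := by
    ext p
    rw [ContinuousMap.comp_apply]
    congr 1
    apply Subtype.ext
    change ((((1 : I) : ℝ) : ℂ) * p.1.1, p.1.2) = p.1
    simp
  rw [e2] at s2
  exact s2

end Pool.Agent.Lexi
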