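import Pool.Agent.H0.Lexi.Torus

set_option autoImplicit false
open MeasureTheory Filter Topology Set Submodule
open scoped ENNReal ComplexConjugate NNReal

namespace Pool.Agent.Lexi

/-- inclusion of the torus -/
noncomputable def iota : G → SS := fun p =>
  ⟨((p.1 : ℂ), (p.2 : ℂ)), (Circle.norm_coe _).le, (Circle.norm_coe _).le,
    Or.inr (Circle.norm_coe _)⟩

lemma iota_cont : Continuous iota := by
  unfold iota
  apply Continuous.subtype_mk
  have h2 : Continuous (fun c : Circle => (c : ℂ)) := by fun_prop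
  exact (h2.comp continuous_fst).prodMk (h2.comp continuous_snd)

lemma iota_inj : Function.Injective iota := by
  intro p q h
  have h1 := congrArg (fun s : SS => s.1) h
  have h2 : ((p.1 : ℂ), (p.2 : ℂ)) = ((q.1 : ℂ), (q.2 : ℂ)) := h1
  exact Prod.ext (Circle.ext (congrArg Prod.fst h2)) (Circle.ext (congrArg Prod.snd h2))

lemma iota_emb : MeasurableEmbedding iota :=
  (iota_cont.isClosedEmbedding iota_inj).measurableEmbedding

/-- the measure -/
noncomputable def sig : Measure SS := Measure.map iota mu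

instance : IsFiniteMeasure sig := by unfold sig; infer_instance

lemma int_sig (g : SS → ℂ) : ∫ s, g s ∂sig = ∫ p, g (iota p) ∂mu := iota_emb.integral_map g

lemma integrable_sig (g : SS → ℂ) : Integrable g sig ↔ Integrable (g ∘ iota) mu :=
  iota_emb.integrable_map_iff

lemma ae_sig {P : SS → Prop} : (∀ᵐ s ∂sig, P s) ↔ ∀ᵐ p ∂mu, P (iota p) := iota_emb.ae_map_iff

/-- nonnegative lexicographic half-plane -/
def sp : Set (ℤ × ℤ) := {q | 0 < q.1 ∨ (q.1 = 0 ∧ 0 ≤ q.2)}

lemma sp_iff (q : ℤ × ℤ) : q ∈ sp ↔ (0 < q.1 ∨ (q.1 = 0 ∧ 0 ≤ q.2)) := Iff.rfl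

/-- pullback to the torus -/
noncomputable def pull : C(SS, ℂ) →ₐ[ℂ] C(G, ℂ) :=
  ContinuousMap.compRightAlgHom ℂ ℂ ⟨iota, iota_cont⟩

lemma pull_apply (f : C(SS, ℂ)) (p : G) : pull f p = f (iota p) := rfl

lemma conj_zpow (y : Circle) (k : ℕ) : (conj (y : ℂ)) ^ k = ((y ^ (-(k : ℤ)) : Circle) : ℂ) := by
  rw [← Circle.coe_inv_eq_conj, ← Circle.coe_pow]
  congr 1
  rw [zpow_neg, zpow_natCast, inv_pow]

lemma pull_W : pull W = chi 0 1 := by
  ext p
  change (p.2 : ℂ) = ((p.1 ^ (0 : ℤ) * p.2 ^ (1 : ℤ) : Circle) : ℂ)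
  simp

lemma pull_Z (k : ℕ) : pull (Z k) = chi 1 (-(k : ℤ)) := by
  ext p
  change (p.1 : ℂ) * (conj (p.2 : ℂ)) ^ k = ((p.1 ^ (1 : ℤ) * p.2 ^ (-(k : ℤ)) : Circle) : ℂ)
  rw [conj_zpow, Circle.coe_mul, zpow_one]

lemma pull_A0 (f : C(SS, ℂ)) (hf : f ∈ A0) :
    pull f ∈ Algebra.adjoin ℂ ((fun q : ℤ × ℤ => chi q.1 q.2) '' sp) := by
  have : A0 ≤ (Algebra.adjoin ℂ ((fun q : ℤ × ℤ => chi q.1 q.2) '' sp)).comap pull := by
    apply Algebra.adjoin_le
    rintro x (rfl | ⟨k, rfl⟩)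
    · change pull W ∈ Algebra.adjoin ℂ ((fun q : ℤ × ℤ => chi q.1 q.2) '' sp)
      rw [pull_W]
      exact Algebra.subset_adjoin ⟨(0, 1), Or.inr ⟨rfl, zero_le_one⟩, rfl⟩
    · change pull (Z k) ∈ Algebra.adjoin ℂ ((fun q : ℤ × ℤ => chi q.1 q.2) '' sp)
      rw [pull_Z]
      exact Algebra.subset_adjoin ⟨(1, -(k : ℤ)), Or.inl one_pos, rfl⟩
  exact this hf

lemma ann0 (f : C(G, ℂ)) (hf : f ∈ Algebra.adjoin ℂ ((fun q : ℤ × ℤ => chi q.1 q.2) '' sp))
    (a b : ℤ) (hab : 0 < a ∨ (a = 0 ∧ 0 < b)) : ∫ p, f p * chi a b p ∂mu = 0 := by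
  have hf' : f ∈ Subalgebra.toSubmodule
      (Algebra.adjoin ℂ ((fun q : ℤ × ℤ => chi q.1 q.2) '' sp)) := hf
  rw [adjoin_span sp (Or.inr ⟨rfl, le_rfl⟩) (by
    intro p hp q hq
    rw [sp_iff] at hp hq ⊢
    simp only [Prod.fst_add, Prod.snd_add]
    omega)] at hf'
  clear hf
  have hi : ∀ k : C(G, ℂ), Integrable (fun p => k p * chi a b p) mu := fun k =>
    int_mul (fn_memLp k) ((fn_memLp (chi a b)).integrable le_top)
  induction hf' using Submodule.span_induction with
  | mem x hx =>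
    obtain ⟨q, hq, rfl⟩ := hx
    rw [sp_iff] at hq
    have : ∀ p, chi q.1 q.2 p * chi a b p = chi (q.1 + a) (q.2 + b) p := by
      intro p
      rw [← chi_mul]; rfl
    simp only [this]
    apply chi_int
    omega
  | zero => simp
  | add x y _ _ hx hy =>
    simp only [ContinuousMap.add_apply, add_mul]
    rw [integral_add (hi x) (hi y), hx, hy, add_zero]
  | smul c x _ hx =>
    simp only [ContinuousMap.smul_apply, smul_eq_mul, mul_assoc]
    rw [integral_const_mul, hx, mul_zero]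

lemma ann (f : C(SS, ℂ)) (hf : f ∈ AA) (a b : ℤ) (hab : 0 < a ∨ (a = 0 ∧ 0 < b)) :
    ∫ p, f (iota p) * chi a b p ∂mu = 0 := by
  by_contra hne
  have hpos : 0 < ‖∫ p, f (iota p) * chi a b p ∂mu‖ := norm_pos_iff.mpr hne
  set M : ℝ := (mu univ).toReal with hM
  have hM0 : 0 ≤ M := ENNReal.toReal_nonneg
  obtain ⟨q, hq, hlt⟩ := approx hf (ε := ‖∫ p, f (iota p) * chi a b p ∂mu‖ / (M + 1)) (by positivity)
  have hi : ∀ k : C(G, ℂ), Integrable (fun p => k p * chi a b p) mu := fun k =>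
    int_mul (fn_memLp k) ((fn_memLp (chi a b)).integrable le_top)
  have e1 : ∫ p, f (iota p) * chi a b p ∂mu = ∫ p, (f - q) (iota p) * chi a b p ∂mu := by
    have : ∀ p, (f - q) (iota p) * chi a b p = pull f p * chi a b p - pull q p * chi a b p := by
      intro p
      rw [pull_apply, pull_apply, ContinuousMap.sub_apply]; ring
    simp_rw [this]
    rw [integral_sub (hi _) (hi _), ann0 (pull q) (pull_A0 q hq) a b hab, sub_zero]
    rfl
  have e2 : ‖∫ p, (f - q) (iota p) * chi a b p ∂mu‖ ≤ ‖f - q‖ * M := by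
    apply norm_integral_le_of_norm_le_const
    filter_upwards with p
    rw [norm_mul]
    have h1 : ‖chi a b p‖ = 1 := Circle.norm_coe _
    rw [h1, mul_one]
    exact (f - q).norm_coe_le_norm _
  rw [← e1] at e2
  have e3 : ‖f - q‖ * (M + 1) < ‖∫ p, f (iota p) * chi a b p ∂mu‖ := by
    rwa [lt_div_iff₀ (by positivity)] at hlt
  nlinarith [norm_nonneg (f - q)]

lemma exists_mono (a b : ℤ) (h : 0 < a ∨ (a = 0 ∧ 0 ≤ b)) : ∃ u ∈ AA, pull u = chi a b := by
  have hWn : ∀ n : ℕ, pull (W ^ n) = chi 0 n := by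
    intro n
    induction n with
    | zero => rw [pow_zero, map_one]; exact chi_zero.symm
    | succ n ih => rw [pow_succ, map_mul, ih, pull_W, chi_mul]; push_cast; rfl
  have hZn : ∀ n : ℕ, pull (Z 0 ^ n) = chi n 0 := by
    intro n
    induction n with
    | zero => rw [pow_zero, map_one]; exact chi_zero.symm
    | succ n ih =>
      rw [pow_succ, map_mul, ih, pull_Z, chi_mul]; push_cast; rfl
  rcases h with h | ⟨h1, h2⟩
  · obtain ⟨m, rfl⟩ : ∃ m : ℕ, a = (m : ℤ) + 1 := ⟨(a - 1).toNat, by omega⟩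
    rcases le_total 0 b with hb | hb
    · obtain ⟨n, rfl⟩ := Int.eq_ofNat_of_zero_le hb
      refine ⟨Z 0 ^ (m + 1) * W ^ n, AA.mul_mem (AA.pow_mem (Z_mem 0) _) (AA.pow_mem W_mem _), ?_⟩
      rw [map_mul, hWn, hZn, chi_mul]
      push_cast
      rw [add_zero, zero_add]
    · obtain ⟨n, hn⟩ := Int.eq_ofNat_of_zero_le (neg_nonneg.mpr hb)
      obtain rfl : b = -(n : ℤ) := by omega
      refine ⟨Z 0 ^ m * Z n, AA.mul_mem (AA.pow_mem (Z_mem 0) _) (Z_mem n), ?_⟩
      rw [map_mul, hZn, pull_Z, chi_mul, zero_add]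
  · obtain ⟨n, rfl⟩ := Int.eq_ofNat_of_zero_le h2
    subst h1
    exact ⟨W ^ n, AA.pow_mem W_mem _, hWn n⟩

lemma mu_real_pos : 0 < (mu univ).toReal := by
  apply ENNReal.toReal_pos
  · exact (Measure.measure_univ_ne_zero).mpr (NeZero.ne mu)
  · exact measure_ne_top _ _

lemma h1_pos (f : SS → ℂ) (hfm : MemLp f ∞ sig) (hfc : InWkCl (fns (AA : Set C(SS, ℂ))) sig f)
    (a b : ℤ) (hab : 0 < a ∨ (a = 0 ∧ 0 < b)) : ∫ p, chi a b p * f (iota p) ∂mu = 0 := by
  have hfc' := (fns_iff AA f hfm).mp hfc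
  obtain ⟨u, hu, hu2⟩ := exists_mono a b (by omega)
  have h1 : ∀ p, u (iota p) = chi a b p := fun p => by rw [← hu2]; rfl
  have h2 := hfc' u ((fn_memLp u).integrable le_top) (by
    intro k hk
    rw [int_sig]
    simp only [h1]
    exact ann k hk a b hab)
  rw [int_sig] at h2
  simp only [h1] at h2
  rw [← h2]
  congr 1
  funext p
  ring

lemma h1_neg (F : G → ℂ) (hr : ∀ᵐ p ∂mu, (F p).im = 0)
    (a b : ℤ) (h1 : ∫ p, chi a b p * F p ∂mu = 0) : ∫ p, chi (-a) (-b) p * F p ∂mu = 0 := by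
  have h2 : ∫ p, chi (-a) (-b) p * F p ∂mu = conj (∫ p, chi a b p * F p ∂mu) := by
    rw [← integral_conj]
    apply integral_congr_ae
    filter_upwards [hr] with p hp
    have h3 : chi (-a) (-b) p = conj (chi a b p) := by rw [← chi_star]; rfl
    have h4 : conj (F p) = F p := Complex.conj_eq_iff_im.mpr hp
    rw [map_mul, h4, h3]
  rw [h2, h1, map_zero]

lemma const_of_coeff (F : G → ℂ) (hFi : Integrable F mu)
    (h : ∀ a b, ¬ (a = 0 ∧ b = 0) → ∫ p, chi a b p * F p ∂mu = 0) :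
    ∃ c : ℂ, ∀ᵐ p ∂mu, F p = c := by
  set c : ℂ := (∫ p, F p ∂mu) / ((mu univ).toReal : ℂ) with hc
  refine ⟨c, ?_⟩
  have hM : ((mu univ).toReal : ℂ) ≠ 0 := by
    exact_mod_cast mu_real_pos.ne'
  have hFm : ∀ a b, Integrable (fun p => chi a b p * F p) mu := fun a b =>
    int_mul (fn_memLp (chi a b)) hFi
  have h0 : (fun p => F p - c) =ᵐ[mu] 0 := by
    apply L1_zero
    · exact hFi.sub (integrable_const c)
    · intro a b
      have e1 : ∀ p, chi a b p * (F p - c) = chi a b p * F p - chi a b p * c :=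
        fun p => by ring
      simp only [e1]
      rw [integral_sub (hFm a b) (((fn_memLp (chi a b)).integrable le_top).mul_const c),
        integral_mul_const]
      by_cases h00 : a = 0 ∧ b = 0
      · obtain ⟨rfl, rfl⟩ := h00
        rw [chi_zero]
        simp only [ContinuousMap.one_apply, one_mul, integral_const, smul_eq_mul, mul_one]
        have e2 : (mu.real univ) • (1 : ℂ) = ((mu univ).toReal : ℂ) := by
          rw [Complex.real_smul, mul_one]; rfl
        rw [e2, hc, mul_div_cancel₀ _ hM, sub_self]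
      · rw [chi_int a b h00, zero_mul, sub_zero]
        exact h a b h00
  filter_upwards [h0] with p hp
  have : F p - c = 0 := hp
  linear_combination this

theorem condH1 : CondH1 AA sig := by
  intro f hf hreal
  have hfm : MemLp f ∞ sig := hf.1
  have hfi : Integrable f sig := hfm.integrable le_top
  have hFi : Integrable (f ∘ iota) mu := (integrable_sig f).mp hfi
  have hr : ∀ᵐ p ∂mu, ((f ∘ iota) p).im = 0 := (ae_sig (P := fun s => (f s).im = 0)).mp hreal
  obtain ⟨c, hc⟩ := const_of_coeff (f ∘ iota) hFi (by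
    intro a b h00
    by_cases hab : 0 < a ∨ (a = 0 ∧ 0 < b)
    · exact h1_pos f hfm hf.2 a b hab
    · have h1 := h1_neg (f ∘ iota) hr (-a) (-b) (h1_pos f hfm hf.2 (-a) (-b) (by omega))
      rwa [neg_neg, neg_neg] at h1)
  exact ⟨c, (ae_sig (P := fun s => f s = c)).mpr hc⟩

theorem condH2 : CondH2 AA sig := by
  intro u hu
  rw [wkcl_iff]
  · intro g hg hann
    have hG : Integrable (g ∘ iota) mu := (integrable_sig g).mp hg
    have h0 : (g ∘ iota) =ᵐ[mu] 0 := by
      apply L1_zero _ hG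
      intro a b
      by_cases hab : 0 < a ∨ (a = 0 ∧ 0 ≤ b)
      · obtain ⟨k, hk, hk2⟩ := exists_mono a b hab
        have h1 := hann _ ⟨k, hk, 0, AA.zero_mem, rfl⟩
        rw [int_sig] at h1
        rw [← h1]
        congr 1
        funext p
        rw [← hk2]
        simp [pull_apply]
      · obtain ⟨k, hk, hk2⟩ := exists_mono (-a) (-b) (by omega)
        have h1 := hann _ ⟨0, AA.zero_mem, k, hk, rfl⟩
        rw [int_sig] at h1
        rw [← h1]
        congr 1
        funext p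
        have h2 : chi a b = star (pull k) := by rw [hk2, chi_star, neg_neg, neg_neg]
        rw [h2]
        simp [pull_apply]
    have h1 : ∀ᵐ s ∂sig, g s = 0 := by
      rw [ae_sig]
      filter_upwards [h0] with p hp
      exact hp
    apply integral_eq_zero_of_ae
    filter_upwards [h1] with s hs
    rw [hs, mul_zero]; rfl
  · rintro _ ⟨f, hf, g, hg, rfl⟩ _ ⟨f', hf', g', hg', rfl⟩
    refine ⟨f + f', AA.add_mem hf hf', g + g', AA.add_mem hg hg', ?_⟩
    funext s
    simp only [ContinuousMap.add_apply, star_add]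
    ring
  · rintro c _ ⟨f, hf, g, hg, rfl⟩
    refine ⟨c • f, AA.smul_mem hf c, conj c • g, AA.smul_mem hg _, ?_⟩
    funext s
    simp
    ring
  · exact ⟨0, AA.zero_mem, 0, AA.zero_mem, by funext s; simp⟩
  · rintro _ ⟨f, hf, g, hg, rfl⟩
    exact fn_memLp (f + star g)
  · exact hu

theorem twoPoints : TwoPoints sig := by
  have hpos : ∀ g : G, ∀ U ∈ 𝓝 (iota g), 0 < sig U := by
    intro g U hU
    have h1 : iota ⁻¹' U ∈ 𝓝 g := iota_cont.continuousAt hU
    have h2 : 0 < mu (iota ⁻¹' U) := Measure.measure_pos_of_mem_nhds mu h1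
    exact h2.trans_le (Measure.le_map_apply iota_cont.measurable.aemeasurable U)
  refine ⟨iota (1, 1), iota (1, Circle.exp Real.pi), ?_, hpos _, hpos _⟩
  intro h
  have h1 := iota_inj h
  exact Circle.exp_pi_ne_one (congrArg Prod.snd h1).symm

end Pool.Agent.Lexi
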