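import Pool.Agent.H0.Lexi.Cl

set_option autoImplicit false
open MeasureTheory Filter Topology Set
open scoped ENNReal

namespace Pool.Agent.Lexi

variable {S : Type} [MeasurableSpace S] {σ : Measure S}

lemma int_mul {f g : S → ℂ} (hf : MemLp f ∞ σ) (hg : Integrable g σ) :
    Integrable (fun s => f s * g s) σ := by
  rw [← memLp_one_iff_integrable] at hg ⊢
  exact MemLp.mul' hg hf

/-- weak-star closure of a linear subspace = double annihilator -/
lemma wkcl_iff (W : Set (S → ℂ)) (hadd : ∀ a ∈ W, ∀ b ∈ W, (fun s => a s + b s) ∈ W)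
    (hsmul : ∀ c : ℂ, ∀ a ∈ W, (fun s => c * a s) ∈ W) (h0 : (fun _ => 0) ∈ W)
    (hW : ∀ a ∈ W, MemLp a ∞ σ) (f : S → ℂ) (hf : MemLp f ∞ σ) :
    InWkCl W σ f ↔
      ∀ g : S → ℂ, Integrable g σ → (∀ a ∈ W, ∫ s, a s * g s ∂σ = 0) → ∫ s, f s * g s ∂σ = 0 := by
  constructor
  · intro h g hg hann
    have key : ∀ ε > 0, ‖∫ s, f s * g s ∂σ‖ < ε := by
      intro ε hε
      obtain ⟨a, ha, hj⟩ := h 1 (fun _ => g) (fun _ => hg) ε hε
      have h1 := hj 0
      have h2 : ∫ s, (f s - a s) * g s ∂σ = ∫ s, f s * g s ∂σ := by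
        have : ∀ s, (f s - a s) * g s = f s * g s - a s * g s := fun s => by ring
        simp_rw [this]
        rw [integral_sub (int_mul hf hg) (int_mul (hW a ha) hg), hann a ha, sub_zero]
      simpa [h2] using h1
    by_contra hne
    have := key _ (norm_pos_iff.mpr hne)
    exact lt_irrefl _ this
  · intro h n g hg ε hε
    -- the image subspace of `ℂ^n`
    let V : Submodule ℂ (Fin n → ℂ) :=
      { carrier := {v | ∃ a ∈ W, ∀ j, v j = ∫ s, a s * g j s ∂σ}
        add_mem' := by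
          rintro v w ⟨a, ha, hv⟩ ⟨b, hb, hw⟩
          refine ⟨_, hadd a ha b hb, fun j => ?_⟩
          simp only [Pi.add_apply, hv, hw, add_mul]
          rw [integral_add (int_mul (hW a ha) (hg j)) (int_mul (hW b hb) (hg j))]
        zero_mem' := by
          refine ⟨_, h0, fun j => ?_⟩
          simp
        smul_mem' := by
          rintro c v ⟨a, ha, hv⟩
          refine ⟨_, hsmul c a ha, fun j => ?_⟩
          simp only [Pi.smul_apply, hv, smul_eq_mul, mul_assoc]
          rw [integral_const_mul] }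
    have hmem : (fun j => ∫ s, f s * g j s ∂σ) ∈ V := by
      by_contra hnot
      obtain ⟨ℓ, hℓ, hker⟩ := Submodule.exists_le_ker_of_notMem hnot
      apply hℓ
      set c : Fin n → ℂ := fun j => ℓ (Pi.single j 1) with hc
      have hrep : ∀ v : Fin n → ℂ, ℓ v = ∑ j, v j * c j := by
        intro v
        have hv : v = ∑ j, v j • (Pi.single j (1 : ℂ) : Fin n → ℂ) := by
          funext i
          simp [Finset.sum_apply, Pi.single_apply]
        conv_lhs => rw [hv]
        rw [map_sum]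
        simp [hc]
      have hG : Integrable (fun s => ∑ j, c j * g j s) σ :=
        integrable_finsetSum _ fun j _ => (hg j).const_mul (c j)
      have hgen : ∀ u : S → ℂ, MemLp u ∞ σ →
          ∫ s, u s * (∑ j, c j * g j s) ∂σ = ∑ j, (∫ s, u s * g j s ∂σ) * c j := by
        intro u hu
        have : ∀ s, u s * (∑ j, c j * g j s) = ∑ j, (u s * g j s) * c j := by
          intro s
          rw [Finset.mul_sum]
          exact Finset.sum_congr rfl fun j _ => by ring
        simp_rw [this]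
        rw [integral_finsetSum _ fun j _ => (int_mul hu (hg j)).mul_const (c j)]
        exact Finset.sum_congr rfl fun j _ => integral_mul_const _ _
      rw [hrep, ← hgen f hf]
      apply h _ hG
      intro a ha
      rw [hgen a (hW a ha), ← hrep (fun j => ∫ s, a s * g j s ∂σ)]
      have : (fun j => ∫ s, a s * g j s ∂σ) ∈ V := ⟨a, ha, fun j => rfl⟩
      exact hker this
    obtain ⟨a, ha, hv⟩ := hmem
    refine ⟨a, ha, fun j => ?_⟩
    have : ∀ s, (f s - a s) * g j s = f s * g j s - a s * g j s := fun s => by ring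
    simp_rw [this]
    rw [integral_sub (int_mul hf (hg j)) (int_mul (hW a ha) (hg j)), ← hv j]
    simpa using hε

section alg
variable [TopologicalSpace S] [CompactSpace S] [BorelSpace S] [IsFiniteMeasure σ]

lemma fn_memLp (a : C(S, ℂ)) : MemLp (⇑a) ∞ σ := by
  apply memLp_top_of_bound a.continuous.aestronglyMeasurable ‖a‖
  filter_upwards with s
  exact a.norm_coe_le_norm s

variable (A : Subalgebra ℂ C(S, ℂ))

lemma fns_iff (f : S → ℂ) (hf : MemLp f ∞ σ) :
    InWkCl (fns (A : Set C(S, ℂ))) σ f ↔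
      ∀ g : S → ℂ, Integrable g σ → (∀ a ∈ A, ∫ s, a s * g s ∂σ = 0) → ∫ s, f s * g s ∂σ = 0 := by
  rw [wkcl_iff (σ := σ) (fns (A : Set C(S, ℂ)))]
  · constructor
    · intro h g hg hann
      apply h g hg
      rintro _ ⟨a, ha, rfl⟩
      exact hann a ha
    · intro h g hg hann
      apply h g hg
      intro a ha
      exact hann _ ⟨a, ha, rfl⟩
  · rintro _ ⟨a, ha, rfl⟩ _ ⟨b, hb, rfl⟩
    exact ⟨a + b, A.add_mem ha hb, rfl⟩
  · rintro c _ ⟨a, ha, rfl⟩
    exact ⟨c • a, A.smul_mem ha c, by funext s; simp⟩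
  · exact ⟨0, A.zero_mem, by funext s; simp⟩
  · rintro _ ⟨a, ha, rfl⟩
    exact fn_memLp a
  · exact hf

lemma cl_mul {f g : S → ℂ} (hf : MemLp f ∞ σ) (hg : MemLp g ∞ σ)
    (h1 : InWkCl (fns (A : Set C(S, ℂ))) σ f) (h2 : InWkCl (fns (A : Set C(S, ℂ))) σ g) :
    MemLp (f * g) ∞ σ ∧ InWkCl (fns (A : Set C(S, ℂ))) σ (f * g) := by
  have hfg : MemLp (f * g) ∞ σ := MemLp.mul hg hf
  refine ⟨hfg, ?_⟩
  rw [fns_iff A _ hf] at h1
  rw [fns_iff A _ hg] at h2
  rw [fns_iff A _ hfg]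
  intro k hk hann
  -- step 1: `∫ a g k = 0`
  have s1 : ∀ a ∈ A, ∫ s, g s * (a s * k s) ∂σ = 0 := by
    intro a ha
    apply h2 _ (int_mul (fn_memLp a) hk)
    intro b hb
    have := hann (b * a) (A.mul_mem hb ha)
    simpa [mul_assoc] using this
  have s2 : ∫ s, f s * (g s * k s) ∂σ = 0 := by
    apply h1 _ (int_mul hg hk)
    intro a ha
    have := s1 a ha
    refine Eq.trans ?_ this
    congr 1
    funext s
    ring
  refine Eq.trans ?_ s2
  congr 1
  funext s
  simp only [Pi.mul_apply]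
  ring

lemma cl_add {f g : S → ℂ} (hf : MemLp f ∞ σ) (hg : MemLp g ∞ σ)
    (h1 : InWkCl (fns (A : Set C(S, ℂ))) σ f) (h2 : InWkCl (fns (A : Set C(S, ℂ))) σ g) :
    MemLp (f + g) ∞ σ ∧ InWkCl (fns (A : Set C(S, ℂ))) σ (f + g) := by
  have hfg : MemLp (f + g) ∞ σ := hf.add hg
  refine ⟨hfg, ?_⟩
  rw [fns_iff A _ hf] at h1
  rw [fns_iff A _ hg] at h2
  rw [fns_iff A _ hfg]
  intro k hk hann
  have : ∀ s, (f + g) s * k s = f s * k s + g s * k s := fun s => by
    simp only [Pi.add_apply]; ring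
  simp_rw [this]
  rw [integral_add (int_mul hf hk) (int_mul hg hk), h1 k hk hann, h2 k hk hann, add_zero]

lemma cl_const (c : ℂ) : MemLp (fun _ : S => c) ∞ σ ∧
    InWkCl (fns (A : Set C(S, ℂ))) σ (fun _ => c) := by
  have hc : MemLp (fun _ : S => c) ∞ σ := memLp_const c
  refine ⟨hc, ?_⟩
  rw [fns_iff A _ hc]
  intro k hk hann
  have := hann (algebraMap ℂ C(S, ℂ) c) (A.algebraMap_mem c)
  simpa using this

lemma cl_of_mem (a : C(S, ℂ)) (ha : a ∈ A) : InWkCl (fns (A : Set C(S, ℂ))) σ a := by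
  rw [fns_iff A _ (fn_memLp a)]
  intro k hk hann
  exact hann a ha

end alg

lemma asig_mul {S : Type} [MeasurableSpace S] {σ : Measure S} [TopologicalSpace S] [CompactSpace S]
    [BorelSpace S] [IsFiniteMeasure σ] {A : SubAlg S} {f g : S → ℂ} (hf : InAsig A σ f)
    (hg : InAsig A σ g) : InAsig A σ (f * g) := cl_mul A hf.1 hg.1 hf.2 hg.2

lemma asig_add {S : Type} [MeasurableSpace S] {σ : Measure S} [TopologicalSpace S] [CompactSpace S]
    [BorelSpace S] [IsFiniteMeasure σ] {A : SubAlg S} {f g : S → ℂ} (hf : InAsig A σ f)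
    (hg : InAsig A σ g) : InAsig A σ (f + g) := cl_add A hf.1 hg.1 hf.2 hg.2

lemma asig_const {S : Type} [MeasurableSpace S] {σ : Measure S} [TopologicalSpace S] [CompactSpace S]
    [BorelSpace S] [IsFiniteMeasure σ] {A : SubAlg S} (c : ℂ) :
    InAsig A σ (algebraMap ℂ (S → ℂ) c) := cl_const A c

lemma hinf_mul {f g : Disk → ℂ} (hf : IsHinf f) (hg : IsHinf g) : IsHinf (f * g) := by
  obtain ⟨⟨C, hC⟩, F, hF, hfF⟩ := hf
  obtain ⟨⟨D, hD⟩, G, hG, hgG⟩ := hg
  refine ⟨⟨C * D, fun z => ?_⟩, fun z => F z * G z, hF.mul hG, fun z => ?_⟩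
  · rw [Pi.mul_apply, norm_mul]
    exact mul_le_mul (hC z) (hD z) (norm_nonneg _) ((norm_nonneg _).trans (hC z))
  · rw [Pi.mul_apply, hfF, hgG]

lemma hinf_add {f g : Disk → ℂ} (hf : IsHinf f) (hg : IsHinf g) : IsHinf (f + g) := by
  obtain ⟨⟨C, hC⟩, F, hF, hfF⟩ := hf
  obtain ⟨⟨D, hD⟩, G, hG, hgG⟩ := hg
  refine ⟨⟨C + D, fun z => ?_⟩, fun z => F z + G z, hF.add hG, fun z => ?_⟩
  · rw [Pi.add_apply]
    exact (norm_add_le _ _).trans (add_le_add (hC z) (hD z))
  · rw [Pi.add_apply, hfF, hgG]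

lemma hinf_const (c : ℂ) : IsHinf (algebraMap ℂ (Disk → ℂ) c) :=
  ⟨⟨‖c‖, fun z => le_rfl⟩, fun _ => c, differentiableOn_const c, fun z => rfl⟩

end Pool.Agent.Lexi
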