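import Pool.Agent.H0.Lexi.Final

set_option autoImplicit false
open MeasureTheory Filter Topology Set
open scoped ENNReal ComplexConjugate NNReal

namespace Pool.Agent.Lexi

/-- evaluation on `H^∞` -/
noncomputable def ev (ζ : Metric.ball (0 : ℂ) 1) : Hinf →ₐ[ℂ] ℂ :=
  (Pi.evalAlgHom ℂ (fun _ : Metric.ball (0 : ℂ) 1 => ℂ) ζ).comp Hinf.val

lemma ev_apply (ζ : Metric.ball (0 : ℂ) 1) (f : Hinf) : ev ζ f = (f : Metric.ball (0 : ℂ) 1 → ℂ) ζ :=
  rfl

lemma hinf_ext (f g : Hinf) (h : ∀ ζ, ev ζ f = ev ζ g) : f = g := by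
  apply Subtype.ext
  funext ζ
  exact h ζ

lemma mu_ne : mu ≠ 0 := NeZero.ne mu

lemma exists_of_ae {P : G → Prop} (h : ∀ᵐ p ∂mu, P p) : ∃ p, P p := by
  have : (ae mu).NeBot := ae_neBot.mpr mu_ne
  exact h.exists

/-- There is no injective (modulo null functions) homomorphism into `H^∞(𝔻)`. -/
theorem no_hom (θ : AA →ₐ[ℂ] Hinf)
    (hker : ∀ f : AA, θ f = 0 → ∀ᵐ s ∂sig, (f : C(SS, ℂ)) s = 0) : False := by
  set w : AA := ⟨W, W_mem⟩ with hw
  set z : ℕ → AA := fun k => ⟨Z k, Z_mem k⟩ with hz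
  have hnorm : ∀ (f : AA) ζ, ‖ev ζ (θ f)‖ ≤ ‖(f : C(SS, ℂ))‖ := fun f ζ =>
    char_norm ((ev ζ).comp θ) f
  have hwle : ∀ ζ, ‖ev ζ (θ w)‖ ≤ 1 := fun ζ => (hnorm w ζ).trans W_norm
  have hlt : ∀ ζ, ‖ev ζ (θ w)‖ < 1 := by
    by_contra hcon
    push Not at hcon
    obtain ⟨ζ₀, hζ₀⟩ := hcon
    obtain ⟨F, hF, hFw⟩ := (θ w).2.2
    have hmax : IsMaxOn (norm ∘ F) (Metric.ball 0 1) (ζ₀ : ℂ) := by
      intro x hx
      change ‖F x‖ ≤ ‖F ζ₀‖
      have h1 : ‖F x‖ ≤ 1 := by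
        have := hwle ⟨x, hx⟩
        rw [ev_apply, hFw] at this
        exact this
      have h2 : 1 ≤ ‖F ζ₀‖ := by
        rw [ev_apply, hFw] at hζ₀
        exact hζ₀
      exact h1.trans h2
    have heq := Complex.eqOn_of_isPreconnected_of_isMaxOn_norm
      (convex_ball (0 : ℂ) 1).isPreconnected Metric.isOpen_ball hF ζ₀.2 hmax
    set c : ℂ := F ζ₀ with hc
    have h3 : θ (w - algebraMap ℂ AA c) = 0 := by
      apply hinf_ext
      intro ζ
      rw [map_sub, map_sub, AlgHom.commutes, AlgHom.commutes, map_zero, ev_apply, hFw]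
      have h4 : F ζ = c := heq ζ.2
      rw [h4]
      exact sub_self c
    have h5 := hker _ h3
    rw [ae_sig] at h5
    have h6 : ∀ᵐ p ∂mu, chi 0 1 p = c := by
      filter_upwards [h5] with p hp
      have h7 : W (iota p) - c = 0 := hp
      have h8 : chi 0 1 p = W (iota p) := by rw [← pull_W]; rfl
      rw [h8]
      linear_combination h7
    have h9 : ∫ p, chi 0 1 p ∂mu = 0 := chi_int 0 1 (by simp)
    rw [integral_congr_ae h6, integral_const] at h9
    have h10 : c = 0 := by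
      rcases smul_eq_zero.mp h9 with h | h
      · exact absurd h mu_real_pos.ne'
      · exact h
    obtain ⟨p, hp⟩ := exists_of_ae h6
    have h11 : ‖chi 0 1 p‖ = 1 := Circle.norm_coe _
    rw [hp, h10, norm_zero] at h11
    exact zero_ne_one h11
  -- `z = w^n z_n`
  have hz0 : θ (z 0) = 0 := by
    apply hinf_ext
    intro ζ
    rw [map_zero]
    have h1 : Tendsto (fun n : ℕ => ‖ev ζ (θ w)‖ ^ n) atTop (𝓝 0) :=
      tendsto_pow_atTop_nhds_zero_of_lt_one (norm_nonneg _) (hlt ζ)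
    have h2 : ∀ n : ℕ, ‖ev ζ (θ (z 0))‖ ≤ ‖ev ζ (θ w)‖ ^ n := by
      intro n
      have h3 : w ^ n * z (0 + n) = z 0 := Subtype.ext (WZn n 0)
      rw [← h3, map_mul, map_mul, map_pow, map_pow, norm_mul, norm_pow]
      exact mul_le_of_le_one_right (by positivity) ((hnorm _ _).trans (Z_norm _))
    exact norm_le_zero_iff.mp (ge_of_tendsto' h1 h2)
  have h1 := hker _ hz0
  rw [ae_sig] at h1
  obtain ⟨p, hp⟩ := exists_of_ae h1
  have h2 : Z 0 (iota p) = 0 := hp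
  have h3 : chi 1 0 p = Z 0 (iota p) := by
    have := pull_Z 0
    have h4 : pull (Z 0) p = chi 1 (-((0 : ℕ) : ℤ)) p := by rw [this]
    rw [← pull_apply, h4]
    rfl
  have h4 : ‖chi 1 0 p‖ = 1 := Circle.norm_coe _
  rw [h3, h2, norm_zero] at h4
  exact zero_ne_one h4

theorem no_iso : ¬ IsoHinf AA sig := by
  rintro ⟨Φ, hH, hhom, hsm, hsurj⟩
  have hin : ∀ f ∈ AA, InAsig AA sig (⇑f) := fun f hf => ⟨fn_memLp _, cl_of_mem AA _ hf⟩
  have h1in : InAsig AA sig (1 : SS → ℂ) := hin 1 AA.one_mem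
  have h0in : InAsig AA sig (0 : SS → ℂ) := hin 0 AA.zero_mem
  have hone : Φ 1 = 1 := by
    obtain ⟨e, he, he1⟩ := hsurj 1 (hinf_const 1)
    have h2 := (hhom 1 e h1in he).2.1
    rw [one_mul, he1, mul_one] at h2
    exact h2.symm
  have hzero : Φ 0 = 0 := by
    have := hsm 0 1 h1in
    rwa [zero_smul, zero_smul] at this
  let θ : AA →ₐ[ℂ] Hinf :=
    { toFun := fun f => ⟨Φ (⇑(f : C(SS, ℂ))), hH _ (hin _ f.2)⟩
      map_one' := Subtype.ext hone
      map_zero' := Subtype.ext hzero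
      map_mul' := fun f g => Subtype.ext (hhom _ _ (hin _ f.2) (hin _ g.2)).2.1
      map_add' := fun f g => Subtype.ext (hhom _ _ (hin _ f.2) (hin _ g.2)).1
      commutes' := fun c => by
        apply Subtype.ext
        have h3 : ⇑((algebraMap ℂ AA c : AA) : C(SS, ℂ)) = c • (1 : SS → ℂ) := by
          funext s
          change c = c * 1
          rw [mul_one]
        change Φ (⇑((algebraMap ℂ AA c : AA) : C(SS, ℂ))) = _
        rw [h3, hsm c 1 h1in, hone]
        exact (Algebra.algebraMap_eq_smul_one c).symm }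
  apply no_hom θ
  intro f hf
  have h2 : Φ (⇑(f : C(SS, ℂ))) = 0 := congrArg Subtype.val hf
  have h3 := (hhom _ 0 (hin _ f.2) h0in).2.2
  rw [hzero] at h3
  exact h3.mp h2

end Pool.Agent.Lexi
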