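import Pool.Agent.H0.Lexi.Defs

set_option autoImplicit false
open MeasureTheory Filter Topology Set
open scoped ENNReal ComplexConjugate unitInterval

namespace Pool.Agent.Lexi

lemma char_norm0 {S : Type} [TopologicalSpace S] [CompactSpace S]
    (A : Subalgebra ℂ C(S, ℂ)) [CompleteSpace A] (φ : A →ₐ[ℂ] ℂ) (f : A) :
    ‖φ f‖ ≤ ‖(f : C(S, ℂ))‖ := by
  have h1 : φ f ∈ spectrum ℂ f := AlgHom.apply_mem_spectrum φ f
  have h2 : ‖φ f‖ ≤ ‖f‖ * ‖(1 : A)‖ := spectrum.norm_le_norm_mul_of_mem h1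
  have h3 : ‖(1 : A)‖ ≤ 1 := by
    change ‖(1 : C(S, ℂ))‖ ≤ 1
    rw [ContinuousMap.norm_le _ zero_le_one]
    intro p
    simp
  have h4 : ‖f‖ * ‖(1 : A)‖ ≤ ‖f‖ * 1 := mul_le_mul_of_nonneg_left h3 (norm_nonneg _)
  rw [mul_one] at h4
  exact h2.trans h4

/-- `{z = 0, |w| ≤ 1} ∪ {|z| ≤ 1, |w| = 1} ⊂ ℂ²` -/
def SS : Set (ℂ × ℂ) := {p | ‖p.1‖ ≤ 1 ∧ ‖p.2‖ ≤ 1 ∧ (p.1 = 0 ∨ ‖p.2‖ = 1)}

lemma SS_closed : IsClosed SS := by
  have h1 : IsClosed {p : ℂ × ℂ | ‖p.1‖ ≤ 1} := isClosed_le (by fun_prop) (by fun_prop)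
  have h2 : IsClosed {p : ℂ × ℂ | ‖p.2‖ ≤ 1} := isClosed_le (by fun_prop) (by fun_prop)
  have h3 : IsClosed {p : ℂ × ℂ | p.1 = 0} := isClosed_eq (by fun_prop) (by fun_prop)
  have h4 : IsClosed {p : ℂ × ℂ | ‖p.2‖ = 1} := isClosed_eq (by fun_prop) (by fun_prop)
  exact h1.inter (h2.inter (h3.union h4))

instance : CompactSpace SS := by
  rw [← isCompact_iff_compactSpace]
  apply IsCompact.of_isClosed_subset
    ((isCompact_closedBall (0 : ℂ) 1).prod (isCompact_closedBall (0 : ℂ) 1)) SS_closed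
  rintro p ⟨h1, h2, -⟩
  exact ⟨by simpa using h1, by simpa using h2⟩

/-- the coordinate `w` -/
def W : C(SS, ℂ) := ⟨fun p => p.1.2, by fun_prop⟩

/-- the functions `z w̄^k` -/
noncomputable def Z (k : ℕ) : C(SS, ℂ) := ⟨fun p => p.1.1 * (conj p.1.2) ^ k, by fun_prop⟩

/-- the dense subalgebra -/
noncomputable def A0 : Subalgebra ℂ C(SS, ℂ) := Algebra.adjoin ℂ (insert W (range Z))

/-- the algebra -/
noncomputable def AA : Subalgebra ℂ C(SS, ℂ) := A0.topologicalClosure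

lemma AA_closed : IsClosed (AA : Set C(SS, ℂ)) := A0.isClosed_topologicalClosure

lemma W_mem : W ∈ AA := A0.le_topologicalClosure (Algebra.subset_adjoin (mem_insert _ _))

lemma Z_mem (k : ℕ) : Z k ∈ AA :=
  A0.le_topologicalClosure (Algebra.subset_adjoin (mem_insert_of_mem _ (mem_range_self k)))

lemma approx {f : C(SS, ℂ)} (hf : f ∈ AA) {ε : ℝ} (hε : 0 < ε) : ∃ p ∈ A0, ‖f - p‖ < ε := by
  have h1 : f ∈ closure (A0 : Set C(SS, ℂ)) := hf
  obtain ⟨p, hp, h2⟩ := Metric.mem_closure_iff.mp h1 ε hε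
  exact ⟨p, hp, by rwa [← dist_eq_norm]⟩

lemma W_norm : ‖W‖ ≤ 1 := by
  rw [ContinuousMap.norm_le _ zero_le_one]
  intro p
  exact p.2.2.1

lemma Z_norm (k : ℕ) : ‖Z k‖ ≤ 1 := by
  rw [ContinuousMap.norm_le _ zero_le_one]
  intro p
  change ‖p.1.1 * (conj p.1.2) ^ k‖ ≤ 1
  rw [norm_mul, norm_pow, RCLike.norm_conj]
  have h1 := p.2.1
  have h2 := p.2.2.1
  have h3 : ‖p.1.2‖ ^ k ≤ 1 := pow_le_one₀ (norm_nonneg _) h2
  calc ‖p.1.1‖ * ‖p.1.2‖ ^ k ≤ 1 * 1 := mul_le_mul h1 h3 (by positivity) zero_le_one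
    _ = 1 := one_mul 1

lemma WZ (k : ℕ) : W * Z (k + 1) = Z k := by
  ext p
  change p.1.2 * (p.1.1 * (conj p.1.2) ^ (k + 1)) = p.1.1 * (conj p.1.2) ^ k
  rcases p.2.2.2 with h | h
  · rw [h]; ring
  · have : p.1.2 * conj p.1.2 = 1 := by
      rw [Complex.mul_conj, Complex.normSq_eq_norm_sq, h]; simp
    calc p.1.2 * (p.1.1 * (conj p.1.2) ^ (k + 1))
        = (p.1.2 * conj p.1.2) * (p.1.1 * (conj p.1.2) ^ k) := by ring
      _ = _ := by rw [this, one_mul]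

lemma WZn (n k : ℕ) : W ^ n * Z (k + n) = Z k := by
  induction n generalizing k with
  | zero => simp
  | succ n ih =>
    rw [pow_succ, mul_assoc]
    have h1 : W * Z (k + (n + 1)) = Z (k + n) := WZ (k + n)
    rw [h1, ih]

instance : CompleteSpace AA := AA_closed.completeSpace_coe

/-- characters are contractive -/
lemma char_norm (φ : AA →ₐ[ℂ] ℂ) (f : AA) : ‖φ f‖ ≤ ‖(f : C(SS, ℂ))‖ :=
  char_norm0 AA φ f

lemma condI_aux (φ : AA →ₐ[ℂ] ℂ) : ∃ s : SS, ∀ f : AA, φ f = (f : C(SS, ℂ)) s := by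
  set w : AA := ⟨W, W_mem⟩ with hw
  set z : ℕ → AA := fun k => ⟨Z k, Z_mem k⟩ with hz
  have hb : ‖φ w‖ ≤ 1 := (char_norm φ w).trans W_norm
  have ha : ∀ k, ‖φ (z k)‖ ≤ 1 := fun k => (char_norm φ (z k)).trans (Z_norm k)
  have hrec : ∀ n k, (φ w) ^ n * φ (z (k + n)) = φ (z k) := by
    intro n k
    rw [← map_pow, ← map_mul]
    congr 1
    apply Subtype.ext
    exact WZn n k
  -- the point
  have hpt : ∃ s : SS, φ w = s.1.2 ∧ ∀ k, φ (z k) = s.1.1 * (conj s.1.2) ^ k := by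
    rcases hb.lt_or_eq with hlt | heq
    · refine ⟨⟨(0, φ w), by simp, hb, Or.inl rfl⟩, rfl, fun k => ?_⟩
      simp only [zero_mul]
      have h1 : Tendsto (fun n : ℕ => ‖φ w‖ ^ n) atTop (𝓝 0) :=
        tendsto_pow_atTop_nhds_zero_of_lt_one (norm_nonneg _) hlt
      have h2 : ∀ n : ℕ, ‖φ (z k)‖ ≤ ‖φ w‖ ^ n := by
        intro n
        rw [← hrec n k, norm_mul, norm_pow]
        exact mul_le_of_le_one_right (by positivity) (ha _)
      have h3 : ‖φ (z k)‖ ≤ 0 := ge_of_tendsto' h1 h2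
      exact norm_le_zero_iff.mp h3
    · refine ⟨⟨(φ (z 0), φ w), ha 0, hb, Or.inr heq⟩, rfl, fun k => ?_⟩
      change φ (z k) = φ (z 0) * (conj (φ w)) ^ k
      have h1 := hrec k 0
      rw [zero_add] at h1
      have h2 : φ w * conj (φ w) = 1 := by
        rw [Complex.mul_conj, Complex.normSq_eq_norm_sq, heq]; simp
      calc φ (z k) = (φ w * conj (φ w)) ^ k * φ (z k) := by rw [h2, one_pow, one_mul]
        _ = ((φ w) ^ k * φ (z k)) * (conj (φ w)) ^ k := by ring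
        _ = _ := by rw [h1]
  obtain ⟨s, hs1, hs2⟩ := hpt
  refine ⟨s, ?_⟩
  have hle : A0 ≤ AA := A0.le_topologicalClosure
  have hA0 : ∀ p (hp : p ∈ A0), φ ⟨p, hle hp⟩ = p s := by
    intro p hp
    induction hp using Algebra.adjoin_induction with
    | mem x hx =>
      rcases hx with rfl | ⟨k, rfl⟩
      · exact hs1
      · exact hs2 k
    | algebraMap r =>
      have : (⟨algebraMap ℂ C(SS, ℂ) r, hle (A0.algebraMap_mem r)⟩ : AA) = algebraMap ℂ AA r := rfl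
      rw [this, φ.commutes]
      rfl
    | add x y hx hy h1 h2 =>
      have : (⟨x + y, hle (A0.add_mem hx hy)⟩ : AA) = ⟨x, hle hx⟩ + ⟨y, hle hy⟩ := rfl
      rw [this, map_add, h1, h2]
      rfl
    | mul x y hx hy h1 h2 =>
      have : (⟨x * y, hle (A0.mul_mem hx hy)⟩ : AA) = ⟨x, hle hx⟩ * ⟨y, hle hy⟩ := rfl
      rw [this, map_mul, h1, h2]
      rfl
  intro f
  by_contra hne
  have hpos : 0 < ‖φ f - (f : C(SS, ℂ)) s‖ := norm_pos_iff.mpr (sub_ne_zero.mpr hne)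
  obtain ⟨p, hp, hlt⟩ := approx f.2 (half_pos hpos)
  have e1 : φ f - (f : C(SS, ℂ)) s = φ (f - ⟨p, hle hp⟩) + (p s - (f : C(SS, ℂ)) s) := by
    rw [map_sub, hA0 p hp]; ring
  have e2 : ‖φ (f - ⟨p, hle hp⟩)‖ ≤ ‖(f : C(SS, ℂ)) - p‖ := char_norm φ _
  have e3 : ‖p s - (f : C(SS, ℂ)) s‖ ≤ ‖(f : C(SS, ℂ)) - p‖ := by
    rw [norm_sub_rev]
    exact ((f : C(SS, ℂ)) - p).norm_coe_le_norm s
  have e4 := norm_add_le (φ (f - ⟨p, hle hp⟩)) (p s - (f : C(SS, ℂ)) s)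
  rw [← e1] at e4
  linarith

theorem condI : CondI AA := by
  intro φ _ hadd hsmul hmul hne
  have h1 : φ 1 = 1 := by
    have h2 : φ 1 * (φ 1 - 1) = 0 := by
      have := hmul 1 AA.one_mem 1 AA.one_mem
      rw [one_mul] at this
      linear_combination -this
    rcases mul_eq_zero.mp h2 with h3 | h3
    · exfalso
      obtain ⟨f, hf, hf0⟩ := hne
      apply hf0
      have := hmul 1 AA.one_mem f hf
      rwa [one_mul, h3, zero_mul] at this
    · linear_combination h3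
  have h0 : φ 0 = 0 := by
    have := hsmul 0 1 AA.one_mem
    rwa [zero_smul, zero_mul] at this
  let ψ : AA →ₐ[ℂ] ℂ :=
    { toFun := fun f => φ f
      map_one' := h1
      map_zero' := h0
      map_mul' := fun f g => hmul f f.2 g g.2
      map_add' := fun f g => hadd f f.2 g g.2
      commutes' := fun c => by
        have h2 : φ (c • (1 : C(SS, ℂ))) = c := by
          rw [hsmul c 1 AA.one_mem, h1, mul_one]
        have h3 : ((algebraMap ℂ AA c : AA) : C(SS, ℂ)) = c • (1 : C(SS, ℂ)) :=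
          Algebra.algebraMap_eq_smul_one c
        rw [h3, h2]
        rfl }
  obtain ⟨s, hs⟩ := condI_aux ψ
  have hs' : ∀ f ∈ AA, φ f = f s := fun f hf => hs ⟨f, hf⟩
  refine ⟨s, hs', ?_⟩
  intro t ht
  have e1 : W s = W t := by rw [← hs' W W_mem, ← ht W W_mem]
  have e2 : Z 0 s = Z 0 t := by rw [← hs' (Z 0) (Z_mem 0), ← ht (Z 0) (Z_mem 0)]
  have e3 : s.1.1 = t.1.1 := by simpa [Z] using e2
  have e4 : s.1.2 = t.1.2 := e1
  exact (Subtype.ext (Prod.ext e3 e4)).symm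

end Pool.Agent.Lexi
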