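import Pool.Agent.H0.Lexi.Expo

set_option autoImplicit false
open MeasureTheory Filter Topology Set Submodule
open scoped ENNReal ComplexConjugate NNReal

namespace Pool.Agent.Lexi

/-- the torus -/
abbrev G : Type := Circle × Circle

noncomputable instance instMeasG : MeasurableSpace G := borel G
instance instBorelG : BorelSpace G := ⟨rfl⟩

/-- Haar measure of the torus -/
noncomputable def mu : Measure G := Measure.haar

instance : Measure.IsHaarMeasure mu := by unfold mu; infer_instance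
instance : IsFiniteMeasure mu := inferInstance

/-- characters -/
noncomputable def chi (a b : ℤ) : C(G, ℂ) := ⟨fun p => ((p.1 ^ a * p.2 ^ b : Circle) : ℂ), by
    have h : Continuous (fun p : G => (p.1 ^ a * p.2 ^ b : Circle)) :=
      (continuous_fst.zpow a).mul (continuous_snd.zpow b)
    have h2 : Continuous (fun c : Circle => (c : ℂ)) := by fun_prop
    exact h2.comp h⟩

lemma chi_mul (a b c d : ℤ) : chi a b * chi c d = chi (a + c) (b + d) := by
  ext p
  change ((p.1 ^ a * p.2 ^ b : Circle) : ℂ) * ((p.1 ^ c * p.2 ^ d : Circle) : ℂ)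
    = ((p.1 ^ (a + c) * p.2 ^ (b + d) : Circle) : ℂ)
  rw [← Circle.coe_mul, zpow_add, zpow_add]
  congr 1
  exact mul_mul_mul_comm _ _ _ _

lemma chi_zero : chi 0 0 = 1 := by
  ext p
  change ((p.1 ^ (0 : ℤ) * p.2 ^ (0 : ℤ) : Circle) : ℂ) = 1
  simp

lemma chi_star (a b : ℤ) : star (chi a b) = chi (-a) (-b) := by
  ext p
  change conj ((p.1 ^ a * p.2 ^ b : Circle) : ℂ) = ((p.1 ^ (-a) * p.2 ^ (-b) : Circle) : ℂ)
  rw [← Circle.coe_inv_eq_conj]
  congr 1
  rw [mul_inv, zpow_neg, zpow_neg]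

lemma chi_int (a b : ℤ) (h : ¬ (a = 0 ∧ b = 0)) : ∫ p, chi a b p ∂mu = 0 := by
  have hg : ∃ g : G, chi a b g ≠ 1 := by
    have hπ : ∀ n : ℤ, n ≠ 0 → ((Circle.exp (Real.pi / n)) ^ n : Circle) ≠ 1 := by
      intro n hn
      rw [← Circle.exp_zsmul, zsmul_eq_mul, mul_div_cancel₀ _ (by exact_mod_cast hn)]
      exact Circle.exp_pi_ne_one
    by_cases ha : a = 0
    · have hb : b ≠ 0 := fun hb => h ⟨ha, hb⟩
      refine ⟨(1, Circle.exp (Real.pi / b)), ?_⟩
      change ((1 ^ a * (Circle.exp (Real.pi / b)) ^ b : Circle) : ℂ) ≠ 1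
      rw [one_zpow, one_mul]
      intro h1
      exact hπ b hb (Circle.ext (by rw [h1]; simp))
    · refine ⟨(Circle.exp (Real.pi / a), 1), ?_⟩
      change (((Circle.exp (Real.pi / a)) ^ a * 1 ^ b : Circle) : ℂ) ≠ 1
      rw [one_zpow, mul_one]
      intro h1
      exact hπ a ha (Circle.ext (by rw [h1]; simp))
  obtain ⟨g, hg⟩ := hg
  have h1 : ∫ p, chi a b (g * p) ∂mu = ∫ p, chi a b p ∂mu := integral_mul_left_eq_self _ g
  have h2 : ∀ p, chi a b (g * p) = chi a b g * chi a b p := by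
    intro p
    change (((g.1 * p.1) ^ a * (g.2 * p.2) ^ b : Circle) : ℂ)
      = ((g.1 ^ a * g.2 ^ b : Circle) : ℂ) * ((p.1 ^ a * p.2 ^ b : Circle) : ℂ)
    rw [← Circle.coe_mul, mul_zpow, mul_zpow]
    congr 1
    exact mul_mul_mul_comm _ _ _ _
  simp_rw [h2] at h1
  rw [integral_const_mul] at h1
  have h3 : (chi a b g - 1) * ∫ p, chi a b p ∂mu = 0 := by linear_combination h1
  rcases mul_eq_zero.mp h3 with h4 | h4
  · exact absurd (sub_eq_zero.mp h4) hg
  · exact h4

/-- the star subalgebra of trigonometric polynomials -/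
noncomputable def trig : StarSubalgebra ℂ C(G, ℂ) where
  toSubalgebra := Algebra.adjoin ℂ (range fun q : ℤ × ℤ => chi q.1 q.2)
  star_mem' := by
    change Algebra.adjoin ℂ (range fun q : ℤ × ℤ => chi q.1 q.2) ≤
      star (Algebra.adjoin ℂ (range fun q : ℤ × ℤ => chi q.1 q.2))
    refine Algebra.adjoin_le ?_
    rintro - ⟨n, rfl⟩
    exact Algebra.subset_adjoin ⟨(-n.1, -n.2), (chi_star n.1 n.2).symm⟩

lemma adjoin_span (s : Set (ℤ × ℤ)) (h0 : (0, 0) ∈ s) (hadd : ∀ p ∈ s, ∀ q ∈ s, p + q ∈ s) :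
    Subalgebra.toSubmodule (Algebra.adjoin ℂ ((fun q : ℤ × ℤ => chi q.1 q.2) '' s))
      = span ℂ ((fun q : ℤ × ℤ => chi q.1 q.2) '' s) := by
  apply Algebra.adjoin_eq_span_of_subset
  refine Subset.trans ?_ Submodule.subset_span
  intro x hx
  refine Submonoid.closure_induction (fun _ => id) ⟨(0, 0), h0, chi_zero⟩ ?_ hx
  rintro - - - - ⟨m, hm, rfl⟩ ⟨n, hn, rfl⟩
  exact ⟨m + n, hadd m hm n hn, (chi_mul _ _ _ _).symm⟩

lemma trig_sep : trig.SeparatesPoints := by
  intro x y hxy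
  by_cases h1 : x.1 = y.1
  · have h2 : x.2 ≠ y.2 := fun h2 => hxy (Prod.ext h1 h2)
    refine ⟨_, ⟨chi 0 1, Algebra.subset_adjoin ⟨(0, 1), rfl⟩, rfl⟩, ?_⟩
    change ((x.1 ^ (0 : ℤ) * x.2 ^ (1 : ℤ) : Circle) : ℂ) ≠ ((y.1 ^ (0 : ℤ) * y.2 ^ (1 : ℤ) : Circle) : ℂ)
    simpa [Circle.ext_iff] using h2
  · refine ⟨_, ⟨chi 1 0, Algebra.subset_adjoin ⟨(1, 0), rfl⟩, rfl⟩, ?_⟩
    change ((x.1 ^ (1 : ℤ) * x.2 ^ (0 : ℤ) : Circle) : ℂ) ≠ ((y.1 ^ (1 : ℤ) * y.2 ^ (0 : ℤ) : Circle) : ℂ)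
    simpa [Circle.ext_iff] using h1

lemma trig_dense : trig.topologicalClosure = ⊤ :=
  ContinuousMap.starSubalgebra_topologicalClosure_eq_top_of_separatesPoints trig trig_sep

/-- `L¹` functions with vanishing Fourier coefficients vanish. -/
theorem L1_zero (g : G → ℂ) (hg : Integrable g mu) (h : ∀ a b, ∫ p, chi a b p * g p ∂mu = 0) :
    g =ᵐ[mu] 0 := by
  have hm : ∀ k : C(G, ℂ), Integrable (fun p => k p * g p) mu := fun k =>
    int_mul (fn_memLp k) hg
  have h1 : ∀ k ∈ trig, ∫ p, k p * g p ∂mu = 0 := by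
    intro k hk
    have hk' : k ∈ Subalgebra.toSubmodule
        (Algebra.adjoin ℂ ((fun q : ℤ × ℤ => chi q.1 q.2) '' univ)) := by
      rw [image_univ]; exact hk
    rw [adjoin_span univ (mem_univ _) (fun _ _ _ _ => mem_univ _)] at hk'
    clear hk
    induction hk' using Submodule.span_induction with
    | mem x hx =>
      obtain ⟨q, -, rfl⟩ := hx
      exact h q.1 q.2
    | zero => simp
    | add x y _ _ hx hy =>
      simp only [ContinuousMap.add_apply, add_mul]
      rw [integral_add (hm x) (hm y), hx, hy, add_zero]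
    | smul c x _ hx =>
      simp only [ContinuousMap.smul_apply, smul_eq_mul, mul_assoc]
      rw [integral_const_mul, hx, mul_zero]
  have h2 : ∀ k : C(G, ℂ), ∫ p, k p * g p ∂mu = 0 := by
    intro k
    by_contra hne
    have hpos : 0 < ‖∫ p, k p * g p ∂mu‖ := norm_pos_iff.mpr hne
    set I := ∫ p, ‖g p‖ ∂mu with hI
    have hI0 : 0 ≤ I := integral_nonneg fun _ => norm_nonneg _
    have hk : k ∈ closure (trig : Set C(G, ℂ)) := by
      have : k ∈ trig.topologicalClosure := by rw [trig_dense]; trivial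
      exact this
    obtain ⟨p, hp, hlt⟩ := Metric.mem_closure_iff.mp hk
      (‖∫ p, k p * g p ∂mu‖ / (I + 1)) (by positivity)
    have e1 : ∫ x, k x * g x ∂mu = ∫ x, (k - p) x * g x ∂mu := by
      have : ∀ x, (k - p) x * g x = k x * g x - p x * g x := fun x => by
        simp only [ContinuousMap.sub_apply]; ring
      simp_rw [this]
      rw [integral_sub (hm k) (hm p), h1 p hp, sub_zero]
    have e2 : ‖∫ x, (k - p) x * g x ∂mu‖ ≤ ‖k - p‖ * I := by
      rw [hI, ← integral_const_mul]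
      apply norm_integral_le_of_norm_le (hg.norm.const_mul _)
      filter_upwards with x
      rw [norm_mul]
      exact mul_le_mul_of_nonneg_right ((k - p).norm_coe_le_norm x) (norm_nonneg _)
    rw [← e1] at e2
    rw [dist_eq_norm] at hlt
    have e3 : ‖k - p‖ * (I + 1) < ‖∫ p, k p * g p ∂mu‖ := by
      rwa [lt_div_iff₀ (by positivity)] at hlt
    nlinarith [norm_nonneg (k - p)]
  apply ae_eq_zero_of_forall_setIntegral_isClosed_eq_zero hg
  intro F hF
  have h3 : Tendsto (fun n : ℕ => ∫ p, (((hF.apprSeq n p : ℝ≥0) : ℝ) : ℂ) * g p ∂mu) atTop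
      (𝓝 (∫ p, F.indicator g p ∂mu)) := by
    apply tendsto_integral_of_dominated_convergence (fun p => ‖g p‖)
    · intro n
      have := hm ⟨fun p => (((hF.apprSeq n p : ℝ≥0) : ℝ) : ℂ), by
        have := (hF.apprSeq n).continuous
        fun_prop⟩
      exact this.1
    · exact hg.norm
    · intro n
      filter_upwards with p
      rw [norm_mul, Complex.norm_real, Real.norm_eq_abs, NNReal.abs_eq]
      have h4 : ((hF.apprSeq n p : ℝ≥0) : ℝ) ≤ 1 := by
        exact_mod_cast HasOuterApproxClosed.apprSeq_apply_le_one hF n p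
      exact mul_le_of_le_one_left (norm_nonneg _) h4
    · filter_upwards with p
      have h4 := (tendsto_pi_nhds.mp (HasOuterApproxClosed.tendsto_apprSeq hF)) p
      have h5 : Tendsto (fun n => (((hF.apprSeq n p : ℝ≥0) : ℝ) : ℂ)) atTop
          (𝓝 (((F.indicator (fun _ => (1 : ℝ≥0)) p : ℝ≥0) : ℝ) : ℂ)) := by
        have hc : Continuous (fun r : ℝ≥0 => ((r : ℝ) : ℂ)) := by fun_prop
        exact (hc.tendsto _).comp h4
      have h6 := h5.mul_const (g p)
      have h7 : (((F.indicator (fun _ => (1 : ℝ≥0)) p : ℝ≥0) : ℝ) : ℂ) * g p = F.indicator g p := by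
        by_cases hp : p ∈ F
        · simp [hp]
        · simp [hp]
      rw [h7] at h6
      exact h6
  have h4 : ∀ n : ℕ, ∫ p, (((hF.apprSeq n p : ℝ≥0) : ℝ) : ℂ) * g p ∂mu = 0 := by
    intro n
    exact h2 ⟨fun p => (((hF.apprSeq n p : ℝ≥0) : ℝ) : ℂ), by
        have := (hF.apprSeq n).continuous
        fun_prop⟩
  simp_rw [h4] at h3
  rw [← integral_indicator hF.measurableSet]
  exact (tendsto_nhds_unique h3 tendsto_const_nhds)

end Pool.Agent.Lexi
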